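import Pool.Agent.KS6_63.GJ.M5

set_option autoImplicit false

/-!
# Log-rescaled Gagliardo energy of mollifications and the jump set, without Besov regularity

The library proves the inequality of Q1 for `u ∈ B^{1/q}_{q,∞}` and every integrable kernel, by
comparing the difference quotients of `u_ε` and of `u`; this uses the Besov bound. Here the
mollifications themselves are shown to be close, in `L¹` average, to the two one-sided limits on half
balls of radius much larger than `ε` centred at jump points, and the lower bound is proved for them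
directly. No regularity of `u` is needed if the kernel has compact support (`u` is an arbitrary
measurable function) or if `u` is bounded (the kernel is an arbitrary integrable function); `q = 1`
is included in both cases.
-/

open MeasureTheory Filter Topology
open scoped ENNReal

namespace Pool.Agent.Results.MP_c377d9_an.WithoutBesov

open R257.BJ

/-- **Main result.** Let `N = n + 1 ≥ 1`, `d ≥ 0`, `q ≥ 1`, let `u : ℝ^N → ℝ^d` be measurable and
`η : ℝ^N → ℝ` integrable. Suppose that one of the following holds:
(i) `η` has compact support; (ii) `u` is bounded; (iii) `q > 1` and `u ∈ B^{1/q}_{q,∞}`. Then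
`liminf_{ε → 0+} |ln ε|⁻¹ [u_ε]^q_{W^{1/q,q}} ≥ |∫ η|^q κ_N ∫_{J_u} |u^+ - u^-|^q dH^{N-1}`. -/
theorem result : ∀ (n d : ℕ) (q : ℝ), 1 ≤ q →
    ∀ u : E n → F d, AEStronglyMeasurable u volume → ∀ η : E n → ℝ, Integrable η volume →
    ((∃ R : ℝ, ∀ᵐ z, R < ‖z‖ → η z = 0) ∨ (∃ M : ℝ, ∀ᵐ x, ‖u x‖ ≤ M) ∨ (1 < q ∧ MemBesov q u)) →
    ‖∫ z, η z‖ₑ ^ q * (kappa n * ∫⁻ x, jumpSize u x ^ q ∂(Hn n)) ≤
      liminf (fun ε : ℝ => gag q (moll η ε u) / ENNReal.ofReal |Real.log ε|) (𝓝[>] 0) := by
  intro n d q hq u hu η hη h
  rcases h with h | h | ⟨hq1, hB⟩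
  · exact general_case n d q hq u hu η hη (Or.inl h)
  · exact general_case n d q hq u hu η hη (Or.inr h)
  · exact besov_case n d q hq1 u hB η hη

end Pool.Agent.Results.MP_c377d9_an.WithoutBesov
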